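import Pool.Agent.R905.Div

/-!
# Kimura-finiteness, the sign conjecture and nilpotence
-/

set_option autoImplicit false
set_option linter.unusedSectionVars false
set_option linter.unusedSimpArgs false
set_option backward.isDefEq.respectTransparency false
set_option backward.defeqAttrib.useBackward true

open CategoryTheory Limits MonoidalCategory
open Pool.Agent.Y112.KD Pool.Agent.Y112.SR Pool.Agent.R905
open Pool.Agent.TH829.Kim (F F_succ)

namespace Pool.Agent.R936.Nck

universe v u w

section

variable {C : Type u} [Category.{v} C] [Preadditive C] [Linear ℚ C] [MonoidalCategory C]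
  [MonoidalPreadditive C] [MonoidalLinear ℚ C] [SymmetricCategory C] [RightRigidCategory C]
  {K : Type w} [Field K] (R : SuperRealisation C K)

include R in
lemma trace_unit' (hU : UnitQ C) : trq hU (𝟙_ C) (𝟙 (𝟙_ C)) = 1 := by
  have h1 := trq_one R hU (X := 𝟙_ C) 1 (by rw [R.par_unit]; simp)
  have e : R.H.obj (𝟙_ C) ≅ 𝟙_ (ModuleCat.{w} K) := (Functor.Monoidal.εIso R.H).symm
  have h2 : Module.finrank K (R.H.obj (𝟙_ C)) = 1 := by
    rw [LinearEquiv.finrank_eq e.toLinearEquiv]
    exact Module.finrank_self K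
  rw [h2] at h1
  refine Eq.trans ?_ (h1.trans (by norm_num))
  rfl

include R in
lemma ff_eq' (hU : UnitQ C) (X : C) (n : ℕ) (x : tp X n ⟶ tp X n) :
    ff X n x = trq hU (tp X n) x • 𝟙 _ := by
  induction n with
  | zero =>
    obtain ⟨q, hq⟩ := hU.ex x
    change x = _
    have h1 : trq hU (𝟙_ C) x = q := by
      rw [hq]
      have h2 := (trq hU (𝟙_ C)).map_smul q (𝟙 (𝟙_ C))
      refine h2.trans ?_
      rw [trace_unit' R hU, smul_eq_mul, mul_one]
    refine hq.trans ?_
    congr 1
    exact h1.symm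
  | succ n ih =>
    change ff X n (ptr x) = _
    rw [ih, trq_ptr R hU]

variable [IsIdempotentComplete C]

lemma par_tp' {X : C} {d : K} (hX : R.par X = d • 𝟙 _) (n : ℕ) :
    R.par (tp X n) = (d ^ n) • 𝟙 _ := by
  induction n with
  | zero =>
    change R.par (𝟙_ C) = _
    rw [R.par_unit, pow_zero, one_smul]
  | succ n ih =>
    rw [pow_succ]
    exact par_tensor_eq R ih hX

/-- The exterior (symmetric) powers of an even (odd) object vanish in high degrees, if endomorphisms
with zero realisation are nilpotent. -/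
theorem asym_eq_zero' (hU : UnitQ C) (hnil : ∀ M : C, HomNil R M) {X : C} {d : ℚ} (hd : d * d = 1)
    (hX : R.par X = (d : K) • 𝟙 _) :
    asym (-d) X (Module.finrank K (R.H.obj X) + 1) = 0 := by
  have hc := R_charZero R
  have hη : (-d) * (-d) = 1 := by rw [← hd]; ring
  set n := Module.finrank K (R.H.obj X) + 1 with hn
  have e1 : gg (-d) n (fun _ : Fin n => (1 : End X)) = (n.factorial : ℚ) • asym (-d) X n := by
    rw [gg]
    have h3 : ∀ m : ℕ, Dn m (fun _ : Fin m => 𝟙 X) = 𝟙 _ := by
      intro m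
      induction m with
      | zero => rfl
      | succ m ih => rw [Dn_succ, ih, id_tensorHom_id]
    have h4 : Dn n (fun i : Fin n => ((fun _ : Fin n => (1 : End X)) i : X ⟶ X)) = 𝟙 _ := h3 n
    rw [h4, Category.id_comp]
  have e2 := ff_gg hU hη n (fun _ : Fin n => (1 : End X))
  rw [ff_eq' R hU, F_one, trq_one R hU d hX] at e2
  have e3 := hU.inj e2
  have e4 : ∏ i ∈ Finset.range n, (d * (Module.finrank K (R.H.obj X) : ℚ) + -d * (i : ℚ)) = 0 := by
    refine Finset.prod_eq_zero (i := Module.finrank K (R.H.obj X)) (by simp [hn]) (by ring)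
  rw [e4, e1] at e3
  have e5 : trq hU (tp X n) (asym (-d) X n) = 0 := by
    have h1 := (trq hU (tp X n)).map_smul (n.factorial : ℚ) (asym (-d) X n)
    rw [h1, smul_eq_mul] at e3
    exact (mul_eq_zero.1 e3).resolve_left (by exact_mod_cast n.factorial_ne_zero)
  have hi : asym (-d) X n ≫ asym (-d) X n = asym (-d) X n := asym_idem hη X n
  obtain ⟨Q, j, q, h1, h2⟩ := IsIdempotentComplete.idempotents_split _ _ hi
  have e6 : trq hU Q (𝟙 Q) = 0 := by
    rw [← h1, trq_comm' R hU, h2]
    exact e5
  have hQ : R.par Q = (((d ^ n : ℚ)) : K) • 𝟙 _ := by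
    have h3 : R.par Q = R.H.map j ≫ R.par (tp X n) ≫ R.H.map q := by
      rw [← Category.assoc, R.par_natural, Category.assoc, ← Functor.map_comp, h1]
      simp
    rw [h3, par_tp' R hX, Linear.smul_comp, Linear.comp_smul, Category.id_comp, ← Functor.map_comp,
      h1]
    simp
  have e7 := trq_one R hU (d ^ n) hQ
  have e8 : (d ^ n : ℚ) * Module.finrank K (R.H.obj Q) = 0 := e7.symm.trans e6
  have hd0 : d ≠ 0 := fun h => by simp [h] at hd
  have e9 : Module.finrank K (R.H.obj Q) = 0 := by
    exact_mod_cast (mul_eq_zero.1 e8).resolve_left (pow_ne_zero n hd0)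
  have hZ : IsZero (R.H.obj Q) := by
    by_contra hne
    exact finrank_ne_zero R hne e9
  have e10 := (hnil Q).id_eq_zero hZ
  rw [← h2, ← Category.id_comp j, e10, zero_comp, comp_zero]

/-- An object which satisfies the sign conjecture is Kimura-finite, if the endomorphisms with zero
realisation are nilpotent. -/
theorem isKimuraFinite_of_nil (hU : UnitQ C) (hnil : ∀ M : C, HomNil R M) {M : C}
    (hM : R.CPlus M) : IsKimuraFinite M := by
  obtain ⟨E, O, i, r, i', r', h1, h2, h3, hE, hO⟩ := exists_parts R hM (hnil M)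
  have hn := asym_eq_zero' R hU hnil (X := E) (d := 1) (by norm_num) (by rw [hE]; norm_num)
  have hm := asym_eq_zero' R hU hnil (X := O) (d := -1) (by norm_num) (by rw [hO]; norm_num)
  rw [neg_neg] at hm
  exact (isKimuraFinite_iff M).2 ⟨E, O, i, r, i', r', h1, h2, h3, ⟨_, hn⟩, _, hm⟩

end

end Pool.Agent.R936.Nck
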